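import Pool.Agent.H92.HB.Stm

/-! # Project HB (helper92), module KON: Koenig compactness (helper11) -/

set_option autoImplicit false

open Pool.Agent.H92.HB

namespace Pool.Agent.H11.HB

theorem kon : S_KON := by
  intro X _ d τ L g P hP1 hP2 h
  choose B hB hPB using h
  obtain ⟨U, hU⟩ : ∃ U : Ultrafilter ℕ, ∀ n, ∀ᶠ m in (U : Filter ℕ), n ≤ m :=
    ⟨Filter.hyperfilter ℕ, fun n => Nat.hyperfilter_le_atTop (Filter.eventually_ge_atTop n)⟩
  have key : ∀ k, ∃ b : Finset ℕ, ∀ᶠ m in (U : Filter ℕ), B m k = b := by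
    intro k
    have h1 : ∀ᶠ m in (U : Filter ℕ),
        ∃ b ∈ ((Finset.powerset (Finset.Ico (L k) (L (k + 1))) : Finset (Finset ℕ)) : Set (Finset ℕ)), B m k = b :=
      Filter.Eventually.of_forall (fun m => ⟨B m k, Finset.mem_coe.2 (Finset.mem_powerset.2 (hB m k).2), rfl⟩)
    rw [Ultrafilter.eventually_exists_mem_iff (Finset.finite_toSet _)] at h1
    obtain ⟨b, _, hb⟩ := h1
    exact ⟨b, hb⟩
  choose b hb using key
  refine ⟨b, fun k => ?_, fun n => ?_⟩
  · obtain ⟨m, hm⟩ := (hb k).exists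
    rw [← hm]
    exact hB m k
  · have h1 : ∀ᶠ m in (U : Filter ℕ), ∀ k ∈ Finset.range n, B m k = b k :=
      (Filter.eventually_all_finset _).2 (fun k _ => hb k)
    obtain ⟨m, hm1, hm2⟩ := (h1.and (hU n)).exists
    have e1 := hP2 n m _ hm2 (hPB m)
    have e2 := hP1 n (cloN τ g (B m) n) (cloN τ g (B m) m)
      (Subgroup.closure_mono (fun y ⟨i, k, hk, hy⟩ => ⟨i, k, hk.trans_le hm2, hy⟩)) e1
    have e3 : cloN τ g (B m) n = cloN τ g b n := by
      unfold cloN
      congr 1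
      ext y
      constructor
      · rintro ⟨i, k, hk, hy⟩
        exact ⟨i, k, hk, by rw [hy, hm1 k (Finset.mem_range.2 hk)]⟩
      · rintro ⟨i, k, hk, hy⟩
        exact ⟨i, k, hk, by rw [hy, hm1 k (Finset.mem_range.2 hk)]⟩
    rwa [e3] at e2

end Pool.Agent.H11.HB
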