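import Pool.Agent.H92.HB.Stm2

/-! # Project HB (helper92), module NRM: the norm of the group ring (helper11) -/

set_option autoImplicit false

open scoped Classical
open Pool.Agent.H92.HB

namespace Pool.Agent.H11.HB

theorem nrm : S_NRM := by
  intro G _ _ θ
  obtain ⟨e⟩ := CommGroup.monoidHom_mulEquiv_of_hasEnoughRootsOfUnity G ℂ
  have hN : Algebra.norm ℤ θ = (Matrix.of (fun g h : G => θ.coeff (g * h⁻¹))).det := by
    rw [Algebra.norm_eq_matrix_det (MonoidAlgebra.basis G ℤ) θ]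
    congr 1
    ext g h
    rw [Algebra.leftMulMatrix_eq_repr_mul, Matrix.of_apply, MonoidAlgebra.basis_apply]
    change (θ * MonoidAlgebra.single h 1).coeff g = _
    rw [MonoidAlgebra.coeff_mul_single_apply, mul_one]
  have hF : (∏ᶠ χ : G →* ℂˣ, ∑ g : G, (θ.coeff g : ℂ) * ((χ g : ℂˣ) : ℂ)) =
      ∏ x : G, ∑ g : G, (θ.coeff g : ℂ) * ((e.symm x g : ℂˣ) : ℂ) := by
    rw [← finprod_comp_equiv (e := e.symm.toEquiv), finprod_eq_prod_of_fintype]
    rfl
  rw [hF, hN]
  let N : Matrix G G ℂ := Matrix.of (fun g h : G => (θ.coeff (g * h⁻¹) : ℂ))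
  let Φ : Matrix G G ℂ := Matrix.of (fun x g : G => ((e.symm x g : ℂˣ) : ℂ))
  let lam : G → ℂ := fun x => ∑ g : G, (θ.coeff g : ℂ) * ((e.symm x g : ℂˣ) : ℂ)
  have h1 : (((Matrix.of (fun g h : G => θ.coeff (g * h⁻¹))).det : ℤ) : ℂ) = N.det := by
    exact (RingHom.map_det (Int.castRingHom ℂ) (Matrix.of (fun g h : G => θ.coeff (g * h⁻¹)))).trans rfl
  have h2 : Φ * N = Matrix.diagonal lam * Φ := by
    ext x h
    rw [Matrix.diagonal_mul, Matrix.mul_apply]
    change ∑ g, ((e.symm x g : ℂˣ) : ℂ) * (θ.coeff (g * h⁻¹) : ℂ) =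
      (∑ g : G, (θ.coeff g : ℂ) * ((e.symm x g : ℂˣ) : ℂ)) * ((e.symm x h : ℂˣ) : ℂ)
    rw [Finset.sum_mul, ← Equiv.sum_comp (Equiv.mulRight h)]
    refine Finset.sum_congr rfl (fun g _ => ?_)
    simp only [Equiv.coe_mulRight, mul_inv_cancel_right, map_mul, Units.val_mul]
    ring
  have h3 : Φ.det ≠ 0 := by
    have hu : IsUnit Φ := by
      rw [← Matrix.linearIndependent_rows_iff_isUnit]
      have hinj : Function.Injective (fun x : G => (Units.coeHom ℂ).comp (e.symm x)) := by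
        intro x y hxy
        apply e.symm.injective
        ext g
        exact DFunLike.congr_fun hxy g
      exact (linearIndependent_monoidHom G ℂ).comp _ hinj
    exact ((Matrix.isUnit_iff_isUnit_det _).1 hu).ne_zero
  have h4 := congrArg Matrix.det h2
  rw [Matrix.det_mul, Matrix.det_mul, Matrix.det_diagonal, mul_comm] at h4
  rw [h1]
  exact mul_right_cancel₀ h3 h4

end Pool.Agent.H11.HB
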